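import Pool.Agent.Helper79.BT.Inj

set_option autoImplicit false

/-!
# `K_2(F) ⊗ ℚ → K_2(F') ⊗ ℚ` is injective for an algebraic extension
-/

namespace Pool.Agent.Helper79.BT

open Polynomial IntermediateField
open Pool.Agent.TH826.MK (KQ symb KQ.lift KQ.lift_symb KQ.map KQ.map_symb mulRel steinbergRel)
open Pool.Agent.Helper537_Sym (sy sy_mul_left sy_mul_right sy_swap sy_self sy_one_left sy_one_right sy_neg_left
  sy_neg_right sy_inv_left sy_inv_right sy_steinberg eq_cons map_sy)

theorem kmap_comp {A B C : Type*} [CommRing A] [CommRing B] [CommRing C] (g : B →+* C) (f : A →+* B)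
    (x : KQ A 2) : KQ.map 2 (g.comp f) x = KQ.map 2 g (KQ.map 2 f x) := by
  have h := kq_ext (KQ.map 2 (g.comp f)) ((KQ.map 2 g).comp (KQ.map 2 f)) (by
    intro a b
    show KQ.map 2 (g.comp f) (symb ![a, b]) = KQ.map 2 g (KQ.map 2 f (symb ![a, b]))
    rw [KQ.map_symb, KQ.map_symb, KQ.map_symb]
    rfl) x
  exact h

theorem kmap_id {A : Type*} [CommRing A] (x : KQ A 2) : KQ.map 2 (RingHom.id A) x = x := by
  have h := kq_ext (KQ.map 2 (RingHom.id A)) LinearMap.id (by
    intro a b
    show KQ.map 2 (RingHom.id A) (symb ![a, b]) = symb ![a, b]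
    rw [KQ.map_symb]
    rfl) x
  exact h

/-- the map on generators -/
noncomputable def gmap {A B : Type*} [CommRing A] [CommRing B] (f : A →+* B) (a : Fin 2 → Aˣ) : Fin 2 → Bˣ :=
  fun i => Units.map (f : A →* B) (a i)

theorem kmap_mkQ {A B : Type*} [CommRing A] [CommRing B] (f : A →+* B) (z : (Fin 2 → Aˣ) →₀ ℚ) :
    KQ.map 2 f (KQ.mkQ z) = KQ.mkQ (Finsupp.mapDomain (gmap f) z) := by
  induction z using Finsupp.induction_linear with
  | zero => simp
  | add z w hz hw => rw [map_add, map_add, Finsupp.mapDomain_add, map_add, hz, hw]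
  | single a q =>
    have e : Finsupp.single a q = q • Finsupp.single a (1 : ℚ) := by simp
    rw [e, map_smul, map_smul, Finsupp.mapDomain_smul, map_smul, Finsupp.mapDomain_single]
    congr 1
    exact KQ.map_symb f a

theorem mkQ_zero_iff {A : Type*} [CommRing A] (z : (Fin 2 → Aˣ) →₀ ℚ) :
    KQ.mkQ z = 0 ↔ z ∈ Submodule.span ℚ (mulRel A 2 ∪ steinbergRel A 2) :=
  Submodule.Quotient.mk_eq_zero _

theorem gmap_inj {A B : Type*} [Field A] [Field B] (f : A →+* B) : Function.Injective (gmap f) := by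
  intro a b hab
  funext i
  have h := congrFun hab i
  apply Units.ext
  have h2 := congrArg (Units.val) h
  exact f.injective h2

section fin

variable {F F' : Type*} [Field F] [Field F'] [Algebra F F']

/-- lift of a unit to an intermediate field -/
noncomputable def ul (K : IntermediateField F F') (u : F'ˣ) (h : (u : F') ∈ K) : Kˣ :=
  Units.mk0 ⟨(u : F'), h⟩ (by
    intro h0
    exact u.ne_zero (congrArg Subtype.val h0))

theorem ul_map (K : IntermediateField F F') (u : F'ˣ) (h : (u : F') ∈ K) :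
    Units.map (algebraMap K F' : K →* F') (ul K u h) = u := Units.ext rfl

theorem rel_lift (w : (Fin 2 → F'ˣ) →₀ ℚ) (hw : w ∈ Submodule.span ℚ (mulRel F' 2 ∪ steinbergRel F' 2)) :
    ∃ s : Finset F', ∀ K : IntermediateField F F', (∀ x ∈ s, x ∈ K) →
      ∃ w₁ ∈ Submodule.span ℚ (mulRel K 2 ∪ steinbergRel K 2),
        Finsupp.mapDomain (gmap (algebraMap K F')) w₁ = w := by
  classical
  induction hw using Submodule.span_induction with
  | mem w hw =>
    rcases hw with ⟨a, i, x, y, rfl⟩ | ⟨a, ⟨i, j, hij, h⟩, rfl⟩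
    · refine ⟨{(a 0 : F'), (a 1 : F'), (x : F'), (y : F')}, fun K hK => ?_⟩
      have ha : ∀ i, (a i : F') ∈ K := by
        intro i
        fin_cases i
        · exact hK _ (by simp)
        · exact hK _ (by simp)
      have hx : (x : F') ∈ K := hK _ (by simp)
      have hy : (y : F') ∈ K := hK _ (by simp)
      refine ⟨_, Submodule.subset_span (Or.inl ⟨fun i => ul K (a i) (ha i), i, ul K x hx, ul K y hy, rfl⟩), ?_⟩
      have key : ∀ z : Kˣ, gmap (algebraMap K F') (Function.update (fun i => ul K (a i) (ha i)) i z) =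
          Function.update a i (Units.map (algebraMap K F' : K →* F') z) := by
        intro z
        funext j
        by_cases hj : j = i
        · subst hj; simp [gmap]
        · simp only [gmap, Function.update_of_ne hj]
          exact ul_map K _ _
      rw [sub_eq_add_neg, sub_eq_add_neg, Finsupp.mapDomain_add, Finsupp.mapDomain_add, ← Finsupp.single_neg,
        ← Finsupp.single_neg, Finsupp.mapDomain_single, Finsupp.mapDomain_single, Finsupp.mapDomain_single,
        key, key, key, map_mul, ul_map, ul_map, Finsupp.single_neg, Finsupp.single_neg, ← sub_eq_add_neg,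
        ← sub_eq_add_neg]
    · refine ⟨{(a 0 : F'), (a 1 : F')}, fun K hK => ?_⟩
      have ha : ∀ i, (a i : F') ∈ K := by
        intro i
        fin_cases i
        · exact hK _ (by simp)
        · exact hK _ (by simp)
      refine ⟨_, Submodule.subset_span (Or.inr ⟨fun i => ul K (a i) (ha i), ⟨i, j, hij, ?_⟩, rfl⟩), ?_⟩
      · exact Subtype.ext h
      · rw [Finsupp.mapDomain_single]
        congr 1
        funext i
        exact ul_map K _ _
  | zero => exact ⟨∅, fun K _ => ⟨0, Submodule.zero_mem _, by simp⟩⟩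
  | add z w _ _ hz hw =>
    obtain ⟨s, hs⟩ := hz
    obtain ⟨t, ht⟩ := hw
    refine ⟨s ∪ t, fun K hK => ?_⟩
    obtain ⟨z₁, h1, h2⟩ := hs K fun x hx => hK x (Finset.mem_union_left _ hx)
    obtain ⟨w₁, h3, h4⟩ := ht K fun x hx => hK x (Finset.mem_union_right _ hx)
    exact ⟨z₁ + w₁, Submodule.add_mem _ h1 h3, by rw [Finsupp.mapDomain_add, h2, h4]⟩
  | smul q z _ hz =>
    obtain ⟨s, hs⟩ := hz
    refine ⟨s, fun K hK => ?_⟩
    obtain ⟨z₁, h1, h2⟩ := hs K hK
    exact ⟨q • z₁, Submodule.smul_mem _ _ h1, by rw [Finsupp.mapDomain_smul, h2]⟩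

theorem fin_supp (x : KQ F 2) (hx : KQ.map 2 (algebraMap F F') x = 0) :
    ∃ s : Finset F', ∀ K : IntermediateField F F', (∀ x ∈ s, x ∈ K) → KQ.map 2 (algebraMap F K) x = 0 := by
  obtain ⟨z, hz⟩ := Submodule.mkQ_surjective _ x
  have hz' : KQ.mkQ z = x := hz
  rw [← hz', kmap_mkQ, mkQ_zero_iff] at hx
  obtain ⟨s, hs⟩ := rel_lift (F := F) _ hx
  refine ⟨s, fun K hK => ?_⟩
  obtain ⟨w, hw, hw2⟩ := hs K hK
  rw [← hz', kmap_mkQ, mkQ_zero_iff]
  have h1 : Finsupp.mapDomain (gmap (algebraMap F K)) z = w := by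
    apply Finsupp.mapDomain_injective (gmap_inj (algebraMap K F'))
    rw [hw2, ← Finsupp.mapDomain_comp]
    rfl
  rw [h1]
  exact hw

end fin

universe u

theorem inj_gen {K F' : Type u} [Field K] [Field F'] [Algebra K F'] (a : F') (ha : IsIntegral K a) (x : KQ K 2)
    (hx : KQ.map 2 (algebraMap K K⟮a⟯) x = 0) : x = 0 := by
  have h1 : ((aeval (AdjoinSimple.gen K a) : K[X] →ₐ[K] K⟮a⟯) : K[X] →+* K⟮a⟯).comp C = algebraMap K K⟮a⟯ := by
    ext y
    simp
  refine inj_simple (minpoly.irreducible ha) (minpoly.monic ha)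
    ((aeval (AdjoinSimple.gen K a) : K[X] →ₐ[K] K⟮a⟯) : K[X] →+* K⟮a⟯) ?_ ?_ x (by rw [h1]; exact hx)
  · intro P
    rw [minpoly.dvd_iff]
    have h2 : algebraMap K⟮a⟯ F' (aeval (AdjoinSimple.gen K a) P) = aeval a P := by
      rw [← aeval_algebraMap_apply, AdjoinSimple.algebraMap_gen]
    rw [← h2]
    constructor
    · intro h
      have h3 : aeval (AdjoinSimple.gen K a) P = 0 := h
      rw [h3, map_zero]
    · intro h
      exact (map_eq_zero_iff _ (algebraMap K⟮a⟯ F').injective).1 h
  · rintro ⟨y, hy⟩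
    have h2 : y ∈ (K⟮a⟯).toSubalgebra := hy
    rw [IntermediateField.adjoin_simple_toSubalgebra_of_isAlgebraic ha.isAlgebraic,
      Algebra.adjoin_singleton_eq_range_aeval] at h2
    obtain ⟨P, hP⟩ := h2
    refine ⟨P, ?_⟩
    apply Subtype.ext
    have h3 : algebraMap K⟮a⟯ F' (aeval (AdjoinSimple.gen K a) P) = aeval a P := by
      rw [← aeval_algebraMap_apply, AdjoinSimple.algebraMap_gen]
    exact h3.trans hP

theorem inj_fin {F F' : Type u} [Field F] [Field F'] [Algebra F F'] [Algebra.IsAlgebraic F F'] (S : Finset F') :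
    ∀ x : KQ F 2, KQ.map 2 (algebraMap F (IntermediateField.adjoin F (S : Set F'))) x = 0 → x = 0 := by
  classical
  refine IntermediateField.induction_on_adjoin_finset S
    (fun K => ∀ x : KQ F 2, KQ.map 2 (algebraMap F K) x = 0 → x = 0) ?_ ?_
  · intro x hx
    have h1 := kmap_comp ((IntermediateField.botEquiv F F' : _ ≃ₐ[F] F) :
      (⊥ : IntermediateField F F') →+* F) (algebraMap F (⊥ : IntermediateField F F')) x
    rw [hx, map_zero] at h1
    rw [← h1]
    have h2 : ((IntermediateField.botEquiv F F' : _ ≃ₐ[F] F) :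
      (⊥ : IntermediateField F F') →+* F).comp (algebraMap F (⊥ : IntermediateField F F')) = RingHom.id F := by
      ext y
      simp
    rw [h2, kmap_id]
  · intro K a _ hK x hx
    have hK' : Algebra.IsAlgebraic K F' := Algebra.IsAlgebraic.tower_top (K := F) K
    have h2 := inj_gen (K := K) a (Algebra.IsAlgebraic.isAlgebraic a).isIntegral
      (KQ.map 2 (algebraMap F K) x) (by
        rw [← kmap_comp]
        exact hx)
    exact hK x h2

/-- injectivity for algebraic extensions -/
theorem inj_alg {F F' : Type u} [Field F] [Field F'] [Algebra F F'] [Algebra.IsAlgebraic F F'] (x : KQ F 2)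
    (hx : KQ.map 2 (algebraMap F F') x = 0) : x = 0 := by
  obtain ⟨s, hs⟩ := fin_supp x hx
  exact inj_fin s x (hs _ fun x hx => IntermediateField.subset_adjoin _ _ hx)

end Pool.Agent.Helper79.BT
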