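import Pool.Agent.Helper79.BT.S3

set_option autoImplicit false

/-!
# Tame data of the rational function field
-/

namespace Pool.Agent.Helper79.BT

open Polynomial

section ext

variable {R E : Type*} [CommRing R] [IsDomain R] [Field E] [Algebra R E] [IsFractionRing R E]

omit [IsDomain R] in
theorem am_ne {P : R} (hP : P ≠ 0) : algebraMap R E P ≠ 0 :=
  (map_ne_zero_iff _ (IsFractionRing.injective R E)).2 hP

variable (E) in
/-- the unit of a nonzero element of `R` -/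
noncomputable def pu (P : R) : Eˣ := by
  classical
  exact if h : P = 0 then 1 else Units.mk0 (algebraMap R E P) (am_ne h)

omit [IsDomain R] in
theorem pu_val {P : R} (hP : P ≠ 0) : (pu E P : E) = algebraMap R E P := by
  unfold pu
  rw [dif_neg hP, Units.val_mk0]

theorem pu_mul {P Q : R} (hP : P ≠ 0) (hQ : Q ≠ 0) : pu E (P * Q) = pu E P * pu E Q := by
  apply Units.ext
  rw [Units.val_mul, pu_val hP, pu_val hQ, pu_val (mul_ne_zero hP hQ), map_mul]

theorem pu_one : pu E (1 : R) = 1 := by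
  apply Units.ext
  rw [pu_val one_ne_zero, map_one, Units.val_one]

theorem exists_pu (a : Eˣ) : ∃ P Q : R, P ≠ 0 ∧ Q ≠ 0 ∧ a = pu E P * (pu E Q)⁻¹ := by
  obtain ⟨P, Q, hQ, h⟩ := IsFractionRing.div_surjective (A := R) (a : E)
  have hQ0 := nonZeroDivisors.ne_zero hQ
  have hP0 : P ≠ 0 := by
    rintro rfl
    rw [map_zero, zero_div] at h
    exact a.ne_zero h.symm
  refine ⟨P, Q, hP0, hQ0, ?_⟩
  apply Units.ext
  rw [Units.val_mul, Units.val_inv_eq_inv_val, pu_val hP0, pu_val hQ0, ← h, div_eq_mul_inv]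

/-- multiplicative functions of the nonzero elements extend to the units -/
theorem exists_ext {A : Type*} [CommGroup A] (ψ : R → A)
    (hψ : ∀ P Q : R, P ≠ 0 → Q ≠ 0 → ψ (P * Q) = ψ P * ψ Q) :
    ∃ Ψ : Eˣ → A, (∀ a b, Ψ (a * b) = Ψ a * Ψ b) ∧ ∀ P : R, P ≠ 0 → Ψ (pu E P) = ψ P := by
  choose Pf Qf hP hQ h using fun a : Eˣ => exists_pu (R := R) a
  have key : ∀ (a : Eˣ) (P Q : R), P ≠ 0 → Q ≠ 0 → a = pu E P * (pu E Q)⁻¹ →
      ψ (Pf a) * (ψ (Qf a))⁻¹ = ψ P * (ψ Q)⁻¹ := by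
    intro a P Q hP0 hQ0 ha
    have h1 : pu E (Pf a) * (pu E (Qf a))⁻¹ = pu E P * (pu E Q)⁻¹ := by rw [← h a, ha]
    have h2 : pu E (Pf a * Q) = pu E (P * Qf a) := by
      rw [pu_mul (hP a) hQ0, pu_mul hP0 (hQ a)]
      rw [mul_inv_eq_iff_eq_mul] at h1
      rw [h1, mul_right_comm, inv_mul_cancel_right, mul_comm]
    have h3 : Pf a * Q = P * Qf a := by
      apply IsFractionRing.injective R E
      rw [← pu_val (mul_ne_zero (hP a) hQ0), ← pu_val (mul_ne_zero hP0 (hQ a)), h2]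
    have h4 : ψ (Pf a) * ψ Q = ψ P * ψ (Qf a) := by
      rw [← hψ _ _ (hP a) hQ0, ← hψ _ _ hP0 (hQ a), h3]
    rw [mul_inv_eq_iff_eq_mul, mul_right_comm, eq_mul_inv_iff_mul_eq]
    exact h4
  have hψ1 : ψ 1 = 1 := by
    have := hψ 1 1 one_ne_zero one_ne_zero
    rw [mul_one] at this
    exact (mul_eq_left.1 this.symm)
  refine ⟨fun a => ψ (Pf a) * (ψ (Qf a))⁻¹, fun a b => ?_, fun P hP0 => ?_⟩
  · show ψ (Pf (a * b)) * (ψ (Qf (a * b)))⁻¹ = ψ (Pf a) * (ψ (Qf a))⁻¹ * (ψ (Pf b) * (ψ (Qf b))⁻¹)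
    rw [key (a * b) (Pf a * Pf b) (Qf a * Qf b) (mul_ne_zero (hP a) (hP b)) (mul_ne_zero (hQ a) (hQ b)),
      hψ _ _ (hP a) (hP b), hψ _ _ (hQ a) (hQ b), mul_inv, mul_mul_mul_comm]
    rw [pu_mul (hP a) (hP b), pu_mul (hQ a) (hQ b), mul_inv, mul_mul_mul_comm, ← h a, ← h b]
  · show ψ (Pf (pu E P)) * (ψ (Qf (pu E P)))⁻¹ = ψ P
    rw [key (pu E P) P 1 hP0 one_ne_zero (by rw [pu_one, inv_one, mul_one]), hψ1, inv_one, mul_one]

/-- criterion for the Steinberg relation -/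
theorem st_of {k : Type*} [Field k] (ord : Eˣ → ℤ) (rho : Eˣ → kˣ) (h1 : ∀ a b, ord (a * b) = ord a + ord b)
    (h2 : ∀ a b, rho (a * b) = rho a * rho b)
    (H : ∀ P Q S : R, P ≠ 0 → Q ≠ 0 → S ≠ 0 → P + Q = S →
      (ord (pu E Q) = ord (pu E S) ∧ rho (pu E Q) = rho (pu E S)) ∨
      (ord (pu E P) = ord (pu E S) ∧ rho (pu E P) = rho (pu E S)) ∨
      (ord (pu E P) = ord (pu E S) ∧ ord (pu E Q) = ord (pu E S) ∧
        (rho (pu E P) : k) + rho (pu E Q) = rho (pu E S)) ∨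
      (ord (pu E P) = ord (pu E Q) ∧ rho (pu E Q) = -rho (pu E P)))
    (a b : Eˣ) (hab : (a : E) + b = 1) : (ord b = 0 ∧ rho b = 1) ∨ (ord a = 0 ∧ rho a = 1) ∨
    (ord a = 0 ∧ ord b = 0 ∧ (rho a : k) + rho b = 1) ∨ (ord a = ord b ∧ rho b = -rho a) := by
  have o1 : ord 1 = 0 := by
    have := h1 1 1
    rw [mul_one] at this
    omega
  have r1 : rho 1 = 1 := by
    have := h2 1 1
    rw [mul_one] at this
    exact (mul_eq_left.1 this.symm)
  have oi : ∀ a, ord a⁻¹ = -ord a := by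
    intro a
    have := h1 a a⁻¹
    rw [mul_inv_cancel, o1] at this
    omega
  have ri : ∀ a, rho a⁻¹ = (rho a)⁻¹ := by
    intro a
    have := h2 a a⁻¹
    rw [mul_inv_cancel, r1] at this
    exact (inv_eq_of_mul_eq_one_right this.symm).symm
  obtain ⟨P, Q, hP, hQ, ha⟩ := exists_pu (R := R) a
  obtain ⟨P', Q', hP', hQ', hb⟩ := exists_pu (R := R) b
  have ha' : a = pu E (P * Q') * (pu E (Q * Q'))⁻¹ := by
    rw [pu_mul hP hQ', pu_mul hQ hQ', ha, mul_inv]
    rw [mul_mul_mul_comm, mul_inv_cancel, mul_one]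
  have hb' : b = pu E (P' * Q) * (pu E (Q * Q'))⁻¹ := by
    rw [pu_mul hP' hQ, pu_mul hQ hQ', hb, mul_inv, mul_comm (pu E Q)⁻¹]
    rw [mul_mul_mul_comm, mul_inv_cancel, mul_one]
  have hA := mul_ne_zero hP hQ'
  have hB := mul_ne_zero hP' hQ
  have hS := mul_ne_zero hQ hQ'
  have hsum : P * Q' + P' * Q = Q * Q' := by
    apply IsFractionRing.injective R E
    rw [map_add, ← pu_val hA, ← pu_val hB, ← pu_val hS]
    have h3 : (a : E) * pu E (Q * Q') = pu E (P * Q') := by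
      rw [ha', Units.val_mul, mul_assoc, ← Units.val_mul, inv_mul_cancel, Units.val_one, mul_one]
    have h4 : (b : E) * pu E (Q * Q') = pu E (P' * Q) := by
      rw [hb', Units.val_mul, mul_assoc, ← Units.val_mul, inv_mul_cancel, Units.val_one, mul_one]
    rw [← h3, ← h4, ← add_mul, hab, one_mul]
  have oa : ord a = ord (pu E (P * Q')) - ord (pu E (Q * Q')) := by
    conv_lhs => rw [ha']
    rw [h1, oi]
    ring
  have ob : ord b = ord (pu E (P' * Q)) - ord (pu E (Q * Q')) := by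
    conv_lhs => rw [hb']
    rw [h1, oi]
    ring
  have ra : rho a = rho (pu E (P * Q')) * (rho (pu E (Q * Q')))⁻¹ := by
    conv_lhs => rw [ha']
    rw [h2, ri]
  have rb : rho b = rho (pu E (P' * Q)) * (rho (pu E (Q * Q')))⁻¹ := by
    conv_lhs => rw [hb']
    rw [h2, ri]
  rcases H _ _ _ hA hB hS hsum with ⟨h3, h4⟩ | ⟨h3, h4⟩ | ⟨h3, h4, h5⟩ | ⟨h3, h4⟩
  · exact Or.inl ⟨by omega, by rw [rb, h4, mul_inv_cancel]⟩
  · exact Or.inr (Or.inl ⟨by omega, by rw [ra, h4, mul_inv_cancel]⟩)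
  · refine Or.inr (Or.inr (Or.inl ⟨by omega, by omega, ?_⟩))
    rw [ra, rb, Units.val_mul, Units.val_mul, ← add_mul, h5, ← Units.val_mul, mul_inv_cancel, Units.val_one]
  · exact Or.inr (Or.inr (Or.inr ⟨by omega, by rw [ra, rb, h4, neg_mul]⟩))

end ext

section places

variable {F : Type*} [Field F] (E : Type*) [Field E] [Algebra F[X] E] [IsFractionRing F[X] E]

/-- the decomposition at a monic irreducible polynomial -/
theorem exists_dec {Q : F[X]} (hQ : Irreducible Q) (P : F[X]) (hP : P ≠ 0) :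
    ∃ (n : ℕ) (c : F[X]), P = Q ^ n * c ∧ ¬ Q ∣ c := by
  obtain ⟨c, hc, h1⟩ := (FiniteMultiplicity.of_prime_left hQ.prime hP).exists_eq_pow_mul_and_not_dvd
  exact ⟨_, c, hc, h1⟩

theorem dec_uniq {Q : F[X]} (hQ : Irreducible Q) {n m : ℕ} {c d : F[X]} (hc : ¬ Q ∣ c) (hd : ¬ Q ∣ d)
    (h : Q ^ n * c = Q ^ m * d) : n = m ∧ c = d := by
  have key : ∀ {n m : ℕ} {c d : F[X]}, ¬ Q ∣ c → ¬ Q ∣ d → Q ^ n * c = Q ^ m * d → n ≤ m := by
    intro n m c d hc hd h
    by_contra hcon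
    push Not at hcon
    obtain ⟨r, hr⟩ : ∃ r, n = m + (r + 1) := ⟨n - m - 1, by omega⟩
    rw [hr, pow_add, mul_assoc] at h
    have h1 := mul_left_cancel₀ (pow_ne_zero m hQ.ne_zero) h
    apply hd
    rw [← h1, pow_succ, mul_assoc]
    exact Dvd.dvd.mul_left (dvd_mul_right Q c) _
  have h1 := key hc hd h
  have h2 := key hd hc h.symm
  have h3 : n = m := le_antisymm h1 h2
  subst h3
  exact ⟨rfl, mul_left_cancel₀ (pow_ne_zero n hQ.ne_zero) h⟩

/-- the tame datum at `Q` -/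
theorem exists_TD {k : Type*} [Field k] {Q : F[X]} (hQ : Irreducible Q) (res : F[X] →+* k)
    (hres : ∀ P, res P = 0 ↔ Q ∣ P) : ∃ D : TD E k, D.ord (pu E Q) = 1 ∧ D.rho (pu E Q) = 1 ∧
      ∀ P : F[X], ¬ Q ∣ P → D.ord (pu E P) = 0 ∧ ((D.rho (pu E P) : kˣ) : k) = res P := by
  classical
  choose! n c hdec hndvd using exists_dec hQ
  have hmul : ∀ P P' : F[X], P ≠ 0 → P' ≠ 0 → n (P * P') = n P + n P' ∧ c (P * P') = c P * c P' := by
    intro P P' hP hP'
    refine dec_uniq hQ (hndvd _ (mul_ne_zero hP hP')) (fun h => ?_) ?_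
    · rcases hQ.prime.dvd_or_dvd h with h | h
      · exact hndvd P hP h
      · exact hndvd P' hP' h
    · rw [← hdec _ (mul_ne_zero hP hP'), pow_add]
      conv_lhs => rw [hdec P hP, hdec P' hP']
      ring
  have hne : ∀ P, P ≠ 0 → res (c P) ≠ 0 := fun P hP h => hndvd P hP ((hres _).1 h)
  let ψ : F[X] → Multiplicative ℤ × kˣ := fun P =>
    (Multiplicative.ofAdd (n P : ℤ), if h : res (c P) = 0 then 1 else Units.mk0 _ h)
  have hψ : ∀ P P' : F[X], P ≠ 0 → P' ≠ 0 → ψ (P * P') = ψ P * ψ P' := by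
    intro P P' hP hP'
    obtain ⟨h1, h2⟩ := hmul P P' hP hP'
    refine Prod.ext ?_ ?_
    · show Multiplicative.ofAdd (n (P * P') : ℤ) = Multiplicative.ofAdd (n P : ℤ) * Multiplicative.ofAdd (n P' : ℤ)
      rw [h1, Nat.cast_add, ofAdd_add]
    · show (if h : res (c (P * P')) = 0 then 1 else Units.mk0 _ h : kˣ) =
        (if h : res (c P) = 0 then 1 else Units.mk0 _ h) * (if h : res (c P') = 0 then 1 else Units.mk0 _ h)
      rw [dif_neg (hne _ (mul_ne_zero hP hP')), dif_neg (hne P hP), dif_neg (hne P' hP')]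
      apply Units.ext
      rw [Units.val_mul, Units.val_mk0, Units.val_mk0, Units.val_mk0, h2, map_mul]
  obtain ⟨Ψ, hΨ1, hΨ2⟩ := exists_ext (E := E) ψ hψ
  have hord : ∀ P : F[X], P ≠ 0 → (Multiplicative.toAdd (Ψ (pu E P)).1) = n P := by
    intro P hP
    rw [hΨ2 P hP]
    rfl
  have hrho : ∀ P : F[X], P ≠ 0 → (((Ψ (pu E P)).2 : kˣ) : k) = res (c P) := by
    intro P hP
    rw [hΨ2 P hP]
    show ((if h : res (c P) = 0 then 1 else Units.mk0 _ h : kˣ) : k) = _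
    rw [dif_neg (hne P hP), Units.val_mk0]
  have om : ∀ a b : Eˣ, Multiplicative.toAdd (Ψ (a * b)).1 =
      Multiplicative.toAdd (Ψ a).1 + Multiplicative.toAdd (Ψ b).1 := fun a b => by
    rw [hΨ1, Prod.fst_mul, toAdd_mul]
  have rm : ∀ a b : Eˣ, (Ψ (a * b)).2 = (Ψ a).2 * (Ψ b).2 := fun a b => by
    rw [hΨ1, Prod.snd_mul]
  refine ⟨⟨fun a => Multiplicative.toAdd (Ψ a).1, fun a => (Ψ a).2, om, rm, ?_⟩, ?_, ?_, ?_⟩
  · refine st_of (R := F[X]) _ _ om rm ?_
    intro P P' S hP hP' hS hsum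
    have key : ∀ P P' S : F[X], P ≠ 0 → P' ≠ 0 → S ≠ 0 → P + P' = S → n P < n P' →
        Multiplicative.toAdd (Ψ (pu E P)).1 = Multiplicative.toAdd (Ψ (pu E S)).1 ∧
          (Ψ (pu E P)).2 = (Ψ (pu E S)).2 := by
      intro P P' S hP hP' hS hsum hlt
      obtain ⟨r, hr⟩ : ∃ r, n P' = n P + (r + 1) := ⟨n P' - n P - 1, by omega⟩
      have h1 : Q ^ n P * (c P + Q ^ (r + 1) * c P') = Q ^ n S * c S := by
        rw [← hdec S hS, ← hsum, mul_add, ← mul_assoc, ← pow_add, ← hr, ← hdec P hP, ← hdec P' hP']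
      have h2 : ¬ Q ∣ c P + Q ^ (r + 1) * c P' := by
        intro h
        apply hndvd P hP
        rwa [dvd_add_left] at h
        rw [pow_succ, mul_assoc]
        exact Dvd.dvd.mul_left (dvd_mul_right Q _) _
      obtain ⟨h3, h4⟩ := dec_uniq hQ h2 (hndvd S hS) h1
      refine ⟨by rw [hord P hP, hord S hS, h3], Units.ext ?_⟩
      rw [hrho P hP, hrho S hS, ← h4, map_add, map_mul, map_pow, (hres Q).2 dvd_rfl, zero_pow (by omega),
        zero_mul, add_zero]
    rcases lt_trichotomy (n P) (n P') with hlt | heq | hlt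
    · exact Or.inr (Or.inl (key P P' S hP hP' hS hsum hlt))
    · by_cases hd : Q ∣ c P + c P'
      · refine Or.inr (Or.inr (Or.inr ⟨by rw [hord P hP, hord P' hP', heq], Units.ext ?_⟩))
        rw [Units.val_neg, hrho P hP, hrho P' hP']
        have h1 := (hres _).2 hd
        rw [map_add] at h1
        exact eq_neg_of_add_eq_zero_right h1
      · have h1 : Q ^ n P * (c P + c P') = Q ^ n S * c S := by
          rw [← hdec S hS, ← hsum, mul_add, ← hdec P hP, heq, ← hdec P' hP']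
        obtain ⟨h3, h4⟩ := dec_uniq hQ hd (hndvd S hS) h1
        refine Or.inr (Or.inr (Or.inl ⟨by rw [hord P hP, hord S hS, h3],
          by rw [hord P' hP', hord S hS, ← heq, h3], ?_⟩))
        rw [hrho P hP, hrho P' hP', hrho S hS, ← map_add, h4]
    · exact Or.inl (key P' P S hP' hP hS (by rw [add_comm, hsum]) hlt)
  · have h1 : Q ^ n Q * c Q = Q ^ 1 * 1 := by rw [← hdec Q hQ.ne_zero, pow_one, mul_one]
    have h2 := dec_uniq hQ (hndvd Q hQ.ne_zero) (fun h => hQ.not_isUnit (isUnit_of_dvd_one h)) h1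
    show Multiplicative.toAdd (Ψ (pu E Q)).1 = 1
    rw [hord Q hQ.ne_zero, h2.1, Nat.cast_one]
  · have h1 : Q ^ n Q * c Q = Q ^ 1 * 1 := by rw [← hdec Q hQ.ne_zero, pow_one, mul_one]
    have h2 := dec_uniq hQ (hndvd Q hQ.ne_zero) (fun h => hQ.not_isUnit (isUnit_of_dvd_one h)) h1
    show (Ψ (pu E Q)).2 = 1
    apply Units.ext
    rw [hrho Q hQ.ne_zero, h2.2, map_one, Units.val_one]
  · intro P hP
    have hP0 : P ≠ 0 := by
      rintro rfl
      exact hP (dvd_zero Q)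
    have h1 : Q ^ n P * c P = Q ^ 0 * P := by rw [← hdec P hP0, pow_zero, one_mul]
    have h2 := dec_uniq hQ (hndvd P hP0) hP h1
    refine ⟨?_, ?_⟩
    · show Multiplicative.toAdd (Ψ (pu E P)).1 = 0
      rw [hord P hP0, h2.1, Nat.cast_zero]
    · show (((Ψ (pu E P)).2 : kˣ) : k) = res P
      rw [hrho P hP0, h2.2]

/-- the tame datum at infinity -/
theorem exists_TD_inf : ∃ D : TD E F, ∀ P : F[X], P ≠ 0 → D.ord (pu E P) = -(P.natDegree : ℤ) ∧
    ((D.rho (pu E P) : Fˣ) : F) = P.leadingCoeff := by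
  classical
  let ψ : F[X] → Multiplicative ℤ × Fˣ := fun P =>
    (Multiplicative.ofAdd (-(P.natDegree : ℤ)), if h : P.leadingCoeff = 0 then 1 else Units.mk0 _ h)
  have hψ : ∀ P P' : F[X], P ≠ 0 → P' ≠ 0 → ψ (P * P') = ψ P * ψ P' := by
    intro P P' hP hP'
    refine Prod.ext ?_ ?_
    · show Multiplicative.ofAdd (-((P * P').natDegree : ℤ)) =
        Multiplicative.ofAdd (-(P.natDegree : ℤ)) * Multiplicative.ofAdd (-(P'.natDegree : ℤ))
      rw [natDegree_mul hP hP', ← ofAdd_add]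
      congr 1
      push_cast
      ring
    · show (if h : (P * P').leadingCoeff = 0 then 1 else Units.mk0 _ h : Fˣ) =
        (if h : P.leadingCoeff = 0 then 1 else Units.mk0 _ h) *
          (if h : P'.leadingCoeff = 0 then 1 else Units.mk0 _ h)
      rw [dif_neg (leadingCoeff_ne_zero.2 (mul_ne_zero hP hP')), dif_neg (leadingCoeff_ne_zero.2 hP),
        dif_neg (leadingCoeff_ne_zero.2 hP')]
      apply Units.ext
      rw [Units.val_mul, Units.val_mk0, Units.val_mk0, Units.val_mk0, leadingCoeff_mul]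
  obtain ⟨Ψ, hΨ1, hΨ2⟩ := exists_ext (E := E) ψ hψ
  have hord : ∀ P : F[X], P ≠ 0 → (Multiplicative.toAdd (Ψ (pu E P)).1) = -(P.natDegree : ℤ) := by
    intro P hP
    rw [hΨ2 P hP]
    rfl
  have hrho : ∀ P : F[X], P ≠ 0 → (((Ψ (pu E P)).2 : Fˣ) : F) = P.leadingCoeff := by
    intro P hP
    rw [hΨ2 P hP]
    show ((if h : P.leadingCoeff = 0 then 1 else Units.mk0 _ h : Fˣ) : F) = _
    rw [dif_neg (leadingCoeff_ne_zero.2 hP), Units.val_mk0]
  have om : ∀ a b : Eˣ, Multiplicative.toAdd (Ψ (a * b)).1 =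
      Multiplicative.toAdd (Ψ a).1 + Multiplicative.toAdd (Ψ b).1 := fun a b => by
    rw [hΨ1, Prod.fst_mul, toAdd_mul]
  have rm : ∀ a b : Eˣ, (Ψ (a * b)).2 = (Ψ a).2 * (Ψ b).2 := fun a b => by
    rw [hΨ1, Prod.snd_mul]
  refine ⟨⟨fun a => Multiplicative.toAdd (Ψ a).1, fun a => (Ψ a).2, om, rm, ?_⟩, fun P hP =>
    ⟨hord P hP, hrho P hP⟩⟩
  refine st_of (R := F[X]) _ _ om rm ?_
  intro P P' S hP hP' hS hsum
  have key : ∀ P P' S : F[X], P ≠ 0 → P' ≠ 0 → S ≠ 0 → P + P' = S → P.natDegree < P'.natDegree →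
      Multiplicative.toAdd (Ψ (pu E P')).1 = Multiplicative.toAdd (Ψ (pu E S)).1 ∧
        (Ψ (pu E P')).2 = (Ψ (pu E S)).2 := by
    intro P P' S hP hP' hS hsum hlt
    refine ⟨?_, Units.ext ?_⟩
    · rw [hord P' hP', hord S hS, ← hsum, natDegree_add_eq_right_of_natDegree_lt hlt]
    · rw [hrho P' hP', hrho S hS, ← hsum, leadingCoeff_add_of_degree_lt (degree_lt_degree hlt)]
  rcases lt_trichotomy P.natDegree P'.natDegree with hlt | heq | hlt
  · exact Or.inl (key P P' S hP hP' hS hsum hlt)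
  · by_cases hd : P.leadingCoeff + P'.leadingCoeff = 0
    · refine Or.inr (Or.inr (Or.inr ⟨by rw [hord P hP, hord P' hP', heq], Units.ext ?_⟩))
      rw [Units.val_neg, hrho P hP, hrho P' hP']
      exact eq_neg_of_add_eq_zero_right hd
    · have hdeg : P.degree = P'.degree := by
        rw [degree_eq_natDegree hP, degree_eq_natDegree hP', heq]
      have h1 : (P + P').leadingCoeff = P.leadingCoeff + P'.leadingCoeff :=
        leadingCoeff_add_of_degree_eq hdeg hd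
      have h2 : (P + P').natDegree = P.natDegree := by
        have h3 : (P + P').degree = P.degree := by
          rw [degree_add_eq_of_leadingCoeff_add_ne_zero hd, ← hdeg, max_self]
        exact natDegree_eq_of_degree_eq h3
      refine Or.inr (Or.inr (Or.inl ⟨?_, ?_, ?_⟩))
      · rw [hord P hP, hord S hS, ← hsum, h2]
      · rw [hord P' hP', hord S hS, ← hsum, h2, heq]
      · rw [hrho P hP, hrho P' hP', hrho S hS, ← hsum, h1]
  · exact Or.inr (Or.inl (key P' P S hP' hP hS (by rw [add_comm, hsum]) hlt))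

end places

end Pool.Agent.Helper79.BT
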