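import Pool.Agent.Helper79.BT.Dat

set_option autoImplicit false

/-!
# The filtration of `K_3(F(X)) ⊗ ℚ` by the degree
-/

namespace Pool.Agent.Helper79.BT

open Polynomial
open Pool.Agent.TH826.MK (KQ symb KQ.lift KQ.lift_symb KQ.map KQ.map_symb)
open Pool.Agent.Helper537_Sym (sy sy_mul_left sy_mul_right sy_swap sy_self sy_one_left sy_one_right sy_neg_left
  sy_neg_right sy_inv_left sy_inv_right sy_steinberg)

variable {F : Type*} [Field F] (E : Type*) [Field E] [Algebra F[X] E] [IsFractionRing F[X] E]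

/-- the symbols of polynomials of degree less than `d` -/
noncomputable def Ld (d : ℕ) : Submodule ℚ (KQ E 3) :=
  Submodule.span ℚ {z | ∃ P P' P'' : F[X], P ≠ 0 ∧ P' ≠ 0 ∧ P'' ≠ 0 ∧ P.natDegree < d ∧ P'.natDegree < d ∧
    P''.natDegree < d ∧ z = s3 (pu E P) (pu E P') (pu E P'')}

/-- the symbols with one irreducible entry of degree `d` -/
noncomputable def Wd (d : ℕ) (Q : F[X]) : Submodule ℚ (KQ E 3) :=
  Submodule.span ℚ {z | ∃ P P' : F[X], P ≠ 0 ∧ P' ≠ 0 ∧ P.natDegree < d ∧ P'.natDegree < d ∧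
    z = s3 (pu E Q) (pu E P) (pu E P')}

/-- the symbols in `K_2` -/
noncomputable def D2 (d : ℕ) : Submodule ℚ (KQ E 2) :=
  Submodule.span ℚ {z | ∃ P P' : F[X], P ≠ 0 ∧ P' ≠ 0 ∧ P.natDegree < d ∧ P'.natDegree < d ∧
    z = sy (pu E P) (pu E P')}

variable {E}

theorem d2_mem {d : ℕ} {P P' : F[X]} (h1 : P ≠ 0) (h2 : P' ≠ 0) (h3 : P.natDegree < d) (h4 : P'.natDegree < d) :
    sy (pu E P) (pu E P') ∈ D2 (F := F) E d := Submodule.subset_span ⟨P, P', h1, h2, h3, h4, rfl⟩

theorem rm_d2 {d : ℕ} {W : F[X]} (hW : W ≠ 0) (hWd : W.natDegree < d) {z : KQ E 2} (hz : z ∈ D2 (F := F) E d) :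
    rm (pu E W) z ∈ Ld (F := F) E d := by
  have h : D2 (F := F) E d ≤ (Ld (F := F) E d).comap (rm (pu E W)) := by
    unfold D2
    rw [Submodule.span_le]
    rintro z ⟨P, P', h1, h2, h3, h4, rfl⟩
    show rm (pu E W) _ ∈ Ld (F := F) E d
    rw [rm_sy]
    exact Submodule.subset_span ⟨P, P', W, h1, h2, hW, h3, h4, hWd, rfl⟩
  exact h hz

/-- the basic relation -/
theorem basic_rel {d : ℕ} {Q g h r q : F[X]} (hQ : Q ≠ 0) (hQd : Q.natDegree = d) (hg : g ≠ 0) (hh : h ≠ 0)
    (hr : r ≠ 0) (hgd : g.natDegree < d) (hhd : h.natDegree < d) (hrd : r.natDegree < d)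
    (heq : g * h = q * Q + r) :
    sy (pu E Q) (pu E r) - sy (pu E Q) (pu E g) - sy (pu E Q) (pu E h) ∈ D2 (F := F) E d := by
  by_cases hq : q = 0
  · rw [hq, zero_mul, zero_add] at heq
    rw [← heq, pu_mul hg hh, sy_mul_right]
    have : sy (pu E Q) (pu E g) + sy (pu E Q) (pu E h) - sy (pu E Q) (pu E g) - sy (pu E Q) (pu E h) = 0 := by
      abel
    rw [this]
    exact Submodule.zero_mem _
  · have hqd : q.natDegree < d := by
      have h1 : (q * Q).natDegree < d + d := by
        have h2 : q * Q = g * h - r := by rw [heq]; ring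
        rw [h2]
        refine (natDegree_sub_le _ _).trans_lt (max_lt ?_ (by omega))
        rw [natDegree_mul hg hh]
        omega
      rw [natDegree_mul hq hQ] at h1
      omega
    have hst : sy (pu E q * pu E Q * (pu E g)⁻¹ * (pu E h)⁻¹) (pu E r * (pu E g)⁻¹ * (pu E h)⁻¹) = 0 := by
      refine sy_steinberg ?_
      have hg' : algebraMap F[X] E g ≠ 0 := am_ne hg
      have hh' : algebraMap F[X] E h ≠ 0 := am_ne hh
      simp only [Units.val_mul, Units.val_inv_eq_inv_val, pu_val hg, pu_val hh, pu_val hr, pu_val hq, pu_val hQ]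
      have h1 := congrArg (algebraMap F[X] E) heq
      rw [map_mul, map_add, map_mul] at h1
      field_simp
      exact h1.symm
    have m1 := d2_mem (E := E) hq hr hqd hrd
    have m2 := d2_mem (E := E) hq hg hqd hgd
    have m3 := d2_mem (E := E) hq hh hqd hhd
    have m4 := d2_mem (E := E) hg hr hgd hrd
    have m5 := d2_mem (E := E) hg hh hgd hhd
    have m6 := d2_mem (E := E) hh hr hhd hrd
    have m7 := d2_mem (E := E) hh hg hhd hgd
    simp only [sy_mul_left, sy_mul_right, sy_inv_left, sy_inv_right, sy_self] at hst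
    have h2 : sy (pu E Q) (pu E r) - sy (pu E Q) (pu E g) - sy (pu E Q) (pu E h) =
        -(sy (pu E q) (pu E r)) + sy (pu E q) (pu E g) + sy (pu E q) (pu E h) + sy (pu E g) (pu E r) -
          sy (pu E g) (pu E h) + sy (pu E h) (pu E r) - sy (pu E h) (pu E g) := by
      rw [← sub_eq_zero, ← hst]
      abel
    rw [h2]
    exact Submodule.sub_mem _ (Submodule.add_mem _ (Submodule.sub_mem _ (Submodule.add_mem _
      (Submodule.add_mem _ (Submodule.add_mem _ (Submodule.neg_mem _ m1) m2) m3) m4) m5) m6) m7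

section hmap

variable {k : Type*} [Field k] {Q : F[X]} (hQ : Irreducible Q) (hQm : Q.Monic) (res : F[X] →+* k)
  (hres : ∀ P, res P = 0 ↔ Q ∣ P) (hsurj : Function.Surjective res)

include hQ hQm hres hsurj in
/-- representatives of small degree -/
theorem exists_rep : ∃ rep : kˣ → F[X], (∀ x : kˣ, res (rep x) = (x : k)) ∧ (∀ x : kˣ, rep x ≠ 0) ∧
    (∀ x : kˣ, (rep x).natDegree < Q.natDegree) ∧
    ∀ (x : kˣ) (P : F[X]), P.natDegree < Q.natDegree → res P = x → rep x = P := by
  have hQ1 : Q ≠ 1 := by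
    rintro rfl
    exact hQ.not_isUnit isUnit_one
  have hex : ∀ x : kˣ, ∃ P : F[X], res P = (x : k) ∧ P.natDegree < Q.natDegree := by
    intro x
    obtain ⟨P, hP⟩ := hsurj x
    refine ⟨P %ₘ Q, ?_, natDegree_modByMonic_lt P hQm hQ1⟩
    have h1 := modByMonic_add_div P Q
    have h2 := congrArg res h1
    rw [map_add, map_mul, (hres Q).2 dvd_rfl, zero_mul, add_zero, hP] at h2
    exact h2
  choose rep hrep1 hrep2 using hex
  refine ⟨rep, hrep1, fun x h => ?_, hrep2, fun x P hP hPx => ?_⟩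
  · have h1 := hrep1 x
    rw [h, map_zero] at h1
    exact x.ne_zero h1.symm
  · have h1 : res (rep x - P) = 0 := by rw [map_sub, hrep1, hPx, sub_self]
    have h2 := (hres _).1 h1
    by_contra hne
    have h3 := natDegree_le_of_dvd h2 (sub_ne_zero.2 hne)
    have h4 := natDegree_sub_le (rep x) P
    have h5 := hrep2 x
    have : max (rep x).natDegree P.natDegree < Q.natDegree := max_lt h5 hP
    omega

include hQ hQm hres hsurj in
/-- the map `K_2(k) → K_3(E) / L_d` -/
theorem exists_H : ∃ H : KQ k 2 →ₗ[ℚ] (KQ E 3 ⧸ Ld (F := F) E Q.natDegree),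
    ∀ (a b : kˣ) (P P' : F[X]), P.natDegree < Q.natDegree → P'.natDegree < Q.natDegree → res P = a →
      res P' = b → H (sy a b) = (Ld (F := F) E Q.natDegree).mkQ (s3 (pu E Q) (pu E P) (pu E P')) := by
  obtain ⟨rep, hr1, hr2, hr3, hr4⟩ := exists_rep hQ hQm res hres hsurj
  have hd : 0 < Q.natDegree := hQ.natDegree_pos
  have hmul : ∀ x y : kˣ, ∃ q : F[X], rep x * rep y = q * Q + rep (x * y) := by
    intro x y
    have h1 : res (rep x * rep y - rep (x * y)) = 0 := by
      rw [map_sub, map_mul, hr1, hr1, hr1, Units.val_mul, sub_self]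
    obtain ⟨q, hq⟩ := (hres _).1 h1
    exact ⟨q, by rw [mul_comm q, ← hq]; ring⟩
  have key : ∀ x y c : kˣ, (Ld (F := F) E Q.natDegree).mkQ (s3 (pu E Q) (pu E (rep (x * y))) (pu E (rep c))) =
      (Ld (F := F) E Q.natDegree).mkQ (s3 (pu E Q) (pu E (rep x)) (pu E (rep c))) +
      (Ld (F := F) E Q.natDegree).mkQ (s3 (pu E Q) (pu E (rep y)) (pu E (rep c))) := by
    intro x y c
    obtain ⟨q, hq⟩ := hmul x y
    have h1 := basic_rel (E := E) hQ.ne_zero rfl (hr2 x) (hr2 y) (hr2 (x * y)) (hr3 x) (hr3 y) (hr3 (x * y)) hq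
    have h2 := rm_d2 (hr2 c) (hr3 c) h1
    rw [map_sub, map_sub, rm_sy, rm_sy, rm_sy] at h2
    rw [← map_add, ← sub_eq_zero, ← map_sub, Submodule.mkQ_apply, Submodule.Quotient.mk_eq_zero, ← sub_sub]
    exact h2
  have key2 : ∀ x y c : kˣ, (Ld (F := F) E Q.natDegree).mkQ (s3 (pu E Q) (pu E (rep c)) (pu E (rep (x * y)))) =
      (Ld (F := F) E Q.natDegree).mkQ (s3 (pu E Q) (pu E (rep c)) (pu E (rep x))) +
      (Ld (F := F) E Q.natDegree).mkQ (s3 (pu E Q) (pu E (rep c)) (pu E (rep y))) := by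
    intro x y c
    have h1 := key x y c
    rw [s3_swap12, s3_swap12 _ (pu E (rep c)) (pu E (rep x)), s3_swap12 _ (pu E (rep c)) (pu E (rep y)), map_neg,
      map_neg, map_neg, h1, neg_add]
  refine ⟨KQ.lift (fun x => (Ld (F := F) E Q.natDegree).mkQ (s3 (pu E Q) (pu E (rep (x 0))) (pu E (rep (x 1)))))
    ?_ ?_, ?_⟩
  · intro a i x y
    fin_cases i
    · show (Ld (F := F) E Q.natDegree).mkQ (s3 (pu E Q) (pu E (rep (Function.update a 0 (x * y) 0)))
        (pu E (rep (Function.update a 0 (x * y) 1)))) =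
        (Ld (F := F) E Q.natDegree).mkQ (s3 (pu E Q) (pu E (rep (Function.update a 0 x 0)))
        (pu E (rep (Function.update a 0 x 1)))) +
        (Ld (F := F) E Q.natDegree).mkQ (s3 (pu E Q) (pu E (rep (Function.update a 0 y 0)))
        (pu E (rep (Function.update a 0 y 1))))
      rw [upd2_0, upd2_0, upd2_0]
      exact key x y _
    · show (Ld (F := F) E Q.natDegree).mkQ (s3 (pu E Q) (pu E (rep (Function.update a 1 (x * y) 0)))
        (pu E (rep (Function.update a 1 (x * y) 1)))) =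
        (Ld (F := F) E Q.natDegree).mkQ (s3 (pu E Q) (pu E (rep (Function.update a 1 x 0)))
        (pu E (rep (Function.update a 1 x 1)))) +
        (Ld (F := F) E Q.natDegree).mkQ (s3 (pu E Q) (pu E (rep (Function.update a 1 y 0)))
        (pu E (rep (Function.update a 1 y 1))))
      rw [upd2_1, upd2_1, upd2_1]
      exact key2 x y _
  · rintro a ⟨i, j, hij, h⟩
    obtain ⟨rfl, rfl⟩ := fin2_lt hij
    have h1 : rep (a 0) = 1 - rep (a 1) := by
      refine hr4 _ _ ?_ ?_
      · refine (natDegree_sub_le _ _).trans_lt (max_lt ?_ (hr3 _))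
        rw [natDegree_one]
        exact hd
      · rw [map_sub, map_one, hr1, ← h]
        ring
    have h2 : s3 (pu E Q) (pu E (rep (a 0))) (pu E (rep (a 1))) = 0 := by
      rw [← lm_sy, sy_steinberg, map_zero]
      rw [pu_val (hr2 _), pu_val (hr2 _), ← map_add, h1, sub_add_cancel, map_one]
    show (Ld (F := F) E Q.natDegree).mkQ _ = 0
    rw [h2, map_zero]
  · intro a b P P' hP hP' hPa hPb
    unfold sy
    rw [KQ.lift_symb]
    show (Ld (F := F) E Q.natDegree).mkQ (s3 (pu E Q) (pu E (rep a)) (pu E (rep b))) = _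
    rw [hr4 a P hP hPa, hr4 b P' hP' hPb]

end hmap

end Pool.Agent.Helper79.BT
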