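import Pool.Agent.Helper79.BT.Fil

set_option autoImplicit false

/-!
# `K_2(F) ⊗ ℚ → K_2(F') ⊗ ℚ` is injective for a simple algebraic extension
-/

namespace Pool.Agent.Helper79.BT

open Polynomial
open Pool.Agent.TH826.MK (KQ symb KQ.lift KQ.lift_symb KQ.map KQ.map_symb)
open Pool.Agent.Helper537_Sym (sy sy_mul_left sy_mul_right sy_swap sy_self sy_one_left sy_one_right sy_neg_left
  sy_neg_right sy_inv_left sy_inv_right sy_steinberg eq_cons map_sy)

/-- linear maps which agree on symbols are equal -/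
theorem kq_ext {A : Type*} [CommRing A] {V : Type*} [AddCommGroup V] [Module ℚ V] (f g : KQ A 2 →ₗ[ℚ] V)
    (h : ∀ a b : Aˣ, f (symb ![a, b]) = g (symb ![a, b])) (x : KQ A 2) : f x = g x := by
  obtain ⟨z, hz⟩ := Submodule.mkQ_surjective _ x
  have key : ∀ z : (Fin 2 → Aˣ) →₀ ℚ, f (KQ.mkQ z) = g (KQ.mkQ z) := by
    intro z
    induction z using Finsupp.induction_linear with
    | zero => rw [map_zero, map_zero, map_zero]
    | add z w hz hw => rw [map_add, map_add, map_add, hz, hw]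
    | single a q =>
      have e : Finsupp.single a q = q • Finsupp.single a (1 : ℚ) := by simp
      rw [e, map_smul, map_smul, map_smul]
      congr 1
      have h1 := h (a 0) (a 1)
      rw [← eq_cons] at h1
      exact h1
  have h4 : KQ.mkQ z = x := hz
  rw [← h4]
  exact key z

section gen

variable {E : Type*} [Field E]

theorem closure_mem3 {M : Submodule ℚ (KQ E 3)} {S : Set Eˣ} (h : ∀ x ∈ S, ∀ y ∈ S, ∀ z ∈ S, s3 x y z ∈ M)
    {x y z : Eˣ} (hx : x ∈ Subgroup.closure S) (hy : y ∈ Subgroup.closure S) (hz : z ∈ Subgroup.closure S) :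
    s3 x y z ∈ M := by
  have sw01 : ∀ a b c : Eˣ, s3 a b c ∈ M → s3 b a c ∈ M := fun a b c h => by
    rw [s3_swap01]; exact M.neg_mem h
  have sw12 : ∀ a b c : Eˣ, s3 a b c ∈ M → s3 a c b ∈ M := fun a b c h => by
    rw [s3_swap12]; exact M.neg_mem h
  have slot : ∀ (b c : Eˣ), (∀ x ∈ S, s3 x b c ∈ M) → ∀ x ∈ Subgroup.closure S, s3 x b c ∈ M := by
    intro b c hbc x hx
    induction hx using Subgroup.closure_induction with
    | mem x hx => exact hbc x hx
    | one => rw [s3_one0]; exact M.zero_mem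
    | mul x y _ _ hx hy => rw [s3_mul0]; exact M.add_mem hx hy
    | inv x _ hx => rw [s3_inv0]; exact M.neg_mem hx
  refine slot y z (fun x hx => ?_) x hx
  refine sw01 _ _ _ (slot x z (fun y hy => ?_) y hy)
  refine sw12 _ _ _ (sw01 _ _ _ (slot y x (fun z hz => ?_) z hz))
  exact h z hz y hy x hx

end gen

variable {F : Type*} [Field F] {E : Type*} [Field E] [Algebra F[X] E] [IsFractionRing F[X] E]

/-- the monic irreducible polynomials of degree `d` -/
def Ir (F : Type*) [Field F] (d : ℕ) : Type _ := {Q : F[X] // Q.Monic ∧ Irreducible Q ∧ Q.natDegree = d}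

theorem gen_le {d : ℕ} (hd : 0 < d) : Ld (F := F) E (d + 1) ≤ Ld (F := F) E d ⊔ ⨆ Q : Ir F d, Wd E d Q.1 := by
  classical
  set M := Ld (F := F) E d ⊔ ⨆ Q : Ir F d, Wd E d Q.1 with hM
  let SG : Set Eˣ := {x | ∃ P : F[X], P ≠ 0 ∧ P.natDegree < d ∧ x = pu E P}
  let IQ : Set Eˣ := {x | ∃ Q : Ir F d, x = pu E Q.1}
  have sw01 : ∀ a b c : Eˣ, s3 a b c ∈ M → s3 b a c ∈ M := fun a b c h => by
    rw [s3_swap01]; exact M.neg_mem h
  have sw12 : ∀ a b c : Eˣ, s3 a b c ∈ M → s3 a c b ∈ M := fun a b c h => by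
    rw [s3_swap12]; exact M.neg_mem h
  have m0 : ∀ x ∈ SG, ∀ y ∈ SG, ∀ z ∈ SG, s3 x y z ∈ M := by
    rintro x ⟨P, hP, hPd, rfl⟩ y ⟨P', hP', hPd', rfl⟩ z ⟨P'', hP'', hPd'', rfl⟩
    exact Submodule.mem_sup_left (Submodule.subset_span ⟨P, P', P'', hP, hP', hP'', hPd, hPd', hPd'', rfl⟩)
  have m1 : ∀ x ∈ IQ, ∀ y ∈ SG, ∀ z ∈ SG, s3 x y z ∈ M := by
    rintro x ⟨Q, rfl⟩ y ⟨P', hP', hPd', rfl⟩ z ⟨P'', hP'', hPd'', rfl⟩
    refine Submodule.mem_sup_right (Submodule.mem_iSup_of_mem Q ?_)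
    exact Submodule.subset_span ⟨P', P'', hP', hP'', hPd', hPd'', rfl⟩
  have rel : ∀ x ∈ IQ, ∀ y ∈ IQ, x = y ∨ ∃ r ∈ SG, ∀ z, s3 x y z = s3 x r z - s3 y r z := by
    rintro x ⟨Q, rfl⟩ y ⟨Q', rfl⟩
    by_cases hQ : Q.1 = Q'.1
    · left; rw [hQ]
    right
    have hr0 : Q.1 - Q'.1 ≠ 0 := sub_ne_zero.2 hQ
    have hrd : (Q.1 - Q'.1).natDegree < d := by
      have h1 : (Q.1 - Q'.1).degree < Q.1.degree := by
        refine degree_sub_lt_left ?_ Q.2.2.1.ne_zero ?_
        · rw [degree_eq_natDegree Q.2.2.1.ne_zero, degree_eq_natDegree Q'.2.2.1.ne_zero, Q.2.2.2, Q'.2.2.2]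
        · rw [Q.2.1.leadingCoeff, Q'.2.1.leadingCoeff]
      rw [degree_eq_natDegree hr0, degree_eq_natDegree Q.2.2.1.ne_zero, Q.2.2.2] at h1
      exact_mod_cast h1
    refine ⟨pu E (Q.1 - Q'.1), ⟨_, hr0, hrd, rfl⟩, fun z => ?_⟩
    have hst : sy (pu E Q'.1 * (pu E Q.1)⁻¹) (pu E (Q.1 - Q'.1) * (pu E Q.1)⁻¹) = 0 := by
      refine sy_steinberg ?_
      have h1 : algebraMap F[X] E Q.1 ≠ 0 := am_ne Q.2.2.1.ne_zero
      rw [Units.val_mul, Units.val_mul, Units.val_inv_eq_inv_val, pu_val Q.2.2.1.ne_zero,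
        pu_val Q'.2.2.1.ne_zero, pu_val hr0, map_sub, ← add_mul, add_sub_cancel, mul_inv_cancel₀ h1]
    simp only [sy_mul_left, sy_mul_right, sy_inv_left, sy_inv_right, sy_self] at hst
    have h2 : sy (pu E Q.1) (pu E Q'.1) = sy (pu E Q.1) (pu E (Q.1 - Q'.1)) -
        sy (pu E Q'.1) (pu E (Q.1 - Q'.1)) := by
      rw [sy_swap (pu E Q.1) (pu E Q'.1), ← sub_eq_zero, ← hst]
      abel
    rw [← rm_sy, h2, map_sub, rm_sy, rm_sy]
  have m2 : ∀ x ∈ IQ, ∀ y ∈ IQ, ∀ z ∈ SG, s3 x y z ∈ M := by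
    intro x hx y hy z hz
    rcases rel x hx y hy with h | ⟨r, hr, h⟩
    · rw [h, s3_self01]; exact M.zero_mem
    · rw [h]; exact M.sub_mem (m1 x hx r hr z hz) (m1 y hy r hr z hz)
  have m3 : ∀ x ∈ IQ, ∀ y ∈ IQ, ∀ z ∈ IQ, s3 x y z ∈ M := by
    intro x hx y hy z hz
    rcases rel x hx y hy with h | ⟨r, hr, h⟩
    · rw [h, s3_self01]; exact M.zero_mem
    · rw [h]; exact M.sub_mem (sw12 _ _ _ (m2 x hx z hz r hr)) (sw12 _ _ _ (m2 y hy z hz r hr))
  have mall : ∀ x ∈ SG ∪ IQ, ∀ y ∈ SG ∪ IQ, ∀ z ∈ SG ∪ IQ, s3 x y z ∈ M := by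
    rintro x (hx | hx) y (hy | hy) z (hz | hz)
    · exact m0 x hx y hy z hz
    · exact sw12 _ _ _ (sw01 _ _ _ (m1 z hz x hx y hy))
    · exact sw01 _ _ _ (m1 y hy x hx z hz)
    · exact sw01 _ _ _ (sw12 _ _ _ (m2 y hy z hz x hx))
    · exact m1 x hx y hy z hz
    · exact sw12 _ _ _ (m2 x hx z hz y hy)
    · exact m2 x hx y hy z hz
    · exact m3 x hx y hy z hz
  have hcl : ∀ P : F[X], P ≠ 0 → P.natDegree < d + 1 → pu E P ∈ Subgroup.closure (SG ∪ IQ) := by
    intro P hP hPd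
    have hsg : ∀ P : F[X], P ≠ 0 → P.natDegree < d → pu E P ∈ Subgroup.closure (SG ∪ IQ) :=
      fun P hP hPd => Subgroup.subset_closure (Or.inl ⟨P, hP, hPd, rfl⟩)
    by_cases hlt : P.natDegree < d
    · exact hsg P hP hlt
    have hPn : P.natDegree = d := by omega
    by_cases hirr : Irreducible P
    · have hlc : P.leadingCoeff ≠ 0 := leadingCoeff_ne_zero.2 hP
      have h1 : P = C P.leadingCoeff * (P * C P.leadingCoeff⁻¹) := by
        rw [mul_comm P, ← mul_assoc, ← C_mul, mul_inv_cancel₀ hlc, C_1, one_mul]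
      have hm : (P * C P.leadingCoeff⁻¹).Monic := monic_mul_leadingCoeff_inv hP
      have hi : Irreducible (P * C P.leadingCoeff⁻¹) :=
        (irreducible_mul_leadingCoeff_inv).2 hirr
      have hn : (P * C P.leadingCoeff⁻¹).natDegree = d := by
        rw [natDegree_mul_leadingCoeff_inv P hP, hPn]
      rw [h1, pu_mul (C_ne_zero.2 hlc) hm.ne_zero]
      refine mul_mem (hsg _ (C_ne_zero.2 hlc) (by rw [natDegree_C]; exact hd)) ?_
      exact Subgroup.subset_closure (Or.inr ⟨⟨_, hm, hi, hn⟩, rfl⟩)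
    · have hnu : ¬ IsUnit P := fun h => by
        have := natDegree_eq_zero_of_isUnit h
        omega
      rw [irreducible_iff] at hirr
      push Not at hirr
      obtain ⟨A, B, hAB, hA, hB⟩ := hirr hnu
      have hA0 : A ≠ 0 := by rintro rfl; rw [zero_mul] at hAB; exact hP hAB
      have hB0 : B ≠ 0 := by rintro rfl; rw [mul_zero] at hAB; exact hP hAB
      have hsum : A.natDegree + B.natDegree = d := by rw [← natDegree_mul hA0 hB0, ← hAB, hPn]
      have hAd : 0 < A.natDegree := by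
        by_contra h
        exact hA ((isUnit_iff_degree_eq_zero).2 (by rw [degree_eq_natDegree hA0]; simp; omega))
      have hBd : 0 < B.natDegree := by
        by_contra h
        exact hB ((isUnit_iff_degree_eq_zero).2 (by rw [degree_eq_natDegree hB0]; simp; omega))
      rw [hAB, pu_mul hA0 hB0]
      exact mul_mem (hsg A hA0 (by omega)) (hsg B hB0 (by omega))
  unfold Ld
  rw [Submodule.span_le]
  rintro z ⟨P, P', P'', h1, h2, h3, h4, h5, h6, rfl⟩
  exact closure_mem3 mall (hcl P h1 h4) (hcl P' h2 h5) (hcl P'' h3 h6)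

theorem lt_ndvd {Q P : F[X]} (hP : P ≠ 0) (h : P.natDegree < Q.natDegree) : ¬ Q ∣ P := fun hd =>
  absurd (natDegree_le_of_dvd hd hP) (not_le.2 h)

section descent

variable {k : Type*} [Field k] {Q : F[X]} (res : F[X] →+* k) (D : TD E k)
  (hD1 : D.ord (pu E Q) = 1) (hD2 : D.rho (pu E Q) = 1)
  (hD3 : ∀ P : F[X], ¬ Q ∣ P → D.ord (pu E P) = 0 ∧ ((D.rho (pu E P) : kˣ) : k) = res P)

include hD3 in
theorem tm_zero {A B C : F[X]} (hA : ¬ Q ∣ A) (hB : ¬ Q ∣ B) (hC : ¬ Q ∣ C) :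
    tm D (s3 (pu E A) (pu E B) (pu E C)) = 0 := by
  rw [tm_s3]
  unfold tf
  rw [(hD3 A hA).1, (hD3 B hB).1, (hD3 C hC).1]
  simp

include hD3 in
theorem tm_Ld {d : ℕ} (hd : d ≤ Q.natDegree) {y : KQ E 3} (hy : y ∈ Ld (F := F) E d) : tm D y = 0 := by
  have h : Ld (F := F) E d ≤ LinearMap.ker (tm D) := by
    unfold Ld
    rw [Submodule.span_le]
    rintro z ⟨P, P', P'', h1, h2, h3, h4, h5, h6, rfl⟩
    exact tm_zero res D hD3 (lt_ndvd h1 (by omega)) (lt_ndvd h2 (by omega)) (lt_ndvd h3 (by omega))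
  exact h hy

include hD3 in
theorem tm_Wd_ne {Q' : F[X]} (hQ' : ¬ Q ∣ Q') {y : KQ E 3} (hy : y ∈ Wd E Q.natDegree Q') : tm D y = 0 := by
  have h : Wd E Q.natDegree Q' ≤ LinearMap.ker (tm D) := by
    unfold Wd
    rw [Submodule.span_le]
    rintro z ⟨P, P', h1, h2, h3, h4, rfl⟩
    exact tm_zero res D hD3 hQ' (lt_ndvd h1 h3) (lt_ndvd h2 h4)
  exact h hy

include hD1 hD3 in
theorem tm_Wd (hQ : Irreducible Q) (hQm : Q.Monic) (hres : ∀ P, res P = 0 ↔ Q ∣ P)
    (hsurj : Function.Surjective res) {y : KQ E 3} (hy : y ∈ Wd E Q.natDegree Q) (h0 : tm D y = 0) :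
    y ∈ Ld (F := F) E Q.natDegree := by
  obtain ⟨H, hH⟩ := exists_H (E := E) hQ hQm res hres hsurj
  have h : Wd E Q.natDegree Q ≤ LinearMap.ker (H ∘ₗ tm D - (Ld (F := F) E Q.natDegree).mkQ) := by
    unfold Wd
    rw [Submodule.span_le]
    rintro z ⟨P, P', h1, h2, h3, h4, rfl⟩
    show (H ∘ₗ tm D - (Ld (F := F) E Q.natDegree).mkQ) _ = 0
    rw [LinearMap.sub_apply, LinearMap.comp_apply, tm_s3]
    have e1 := hD3 P (lt_ndvd h1 h3)
    have e2 := hD3 P' (lt_ndvd h2 h4)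
    unfold tf
    rw [hD1, e1.1, e2.1]
    simp only [Int.cast_one, one_smul, Int.cast_zero, zero_smul, sub_zero, add_zero]
    rw [hH _ _ P P' h3 h4 e1.2.symm e2.2.symm, sub_self]
  have h1 := h hy
  rw [LinearMap.mem_ker, LinearMap.sub_apply, LinearMap.comp_apply, h0, map_zero, zero_sub, neg_eq_zero,
    Submodule.mkQ_apply, Submodule.Quotient.mk_eq_zero] at h1
  exact h1

end descent

universe u

/-- the descent -/
theorem descent {F : Type u} [Field F] {E : Type*} [Field E] [Algebra F[X] E] [IsFractionRing F[X] E]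
    {d : ℕ} (hd : 0 < d) {y : KQ E 3} (hy : y ∈ Ld (F := F) E (d + 1))
    (h0 : ∀ Q : Ir F d, ∀ (k : Type u) [Field k] (D : TD E k) (res : F[X] →+* k),
      (∀ P : F[X], ¬ Q.1 ∣ P → D.ord (pu E P) = 0 ∧ ((D.rho (pu E P) : kˣ) : k) = res P) → tm D y = 0) :
    y ∈ Ld (F := F) E d := by
  classical
  have h1 := gen_le (E := E) hd hy
  obtain ⟨l, hl, w, hw, rfl⟩ := Submodule.mem_sup.1 h1
  obtain ⟨f, hf, rfl⟩ := (Submodule.mem_iSup_iff_exists_finsupp _ _).1 hw
  refine Submodule.add_mem _ hl (Submodule.sum_mem _ fun Q hQ => ?_)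
  have : Fact (Irreducible Q.1) := ⟨Q.2.2.1⟩
  have hres : ∀ P, AdjoinRoot.mk Q.1 P = 0 ↔ Q.1 ∣ P := fun P => AdjoinRoot.mk_eq_zero
  obtain ⟨D, hD1, hD2, hD3⟩ := exists_TD (E := E) Q.2.2.1 (AdjoinRoot.mk Q.1) hres
  have h2 := h0 Q (AdjoinRoot Q.1) D (AdjoinRoot.mk Q.1) hD3
  rw [map_add, tm_Ld (AdjoinRoot.mk Q.1) D hD3 Q.2.2.2.ge hl, zero_add, Finsupp.sum, map_sum,
    Finset.sum_eq_single Q] at h2
  · have h3 := tm_Wd (AdjoinRoot.mk Q.1) D hD1 hD3 Q.2.2.1 Q.2.1 hres AdjoinRoot.mk_surjective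
      (y := f Q) (by rw [Q.2.2.2]; exact hf Q) h2
    rwa [Q.2.2.2] at h3
  · intro Q' hQ' hne
    have h3 : ¬ Q.1 ∣ Q'.1 := by
      intro hd
      apply hne
      have h4 : Q.1 = Q'.1 := eq_of_monic_of_associated Q.2.1 Q'.2.1
        ((Q.2.2.1.associated_of_dvd Q'.2.2.1 hd))
      exact Subtype.ext h4.symm
    refine tm_Wd_ne (AdjoinRoot.mk Q.1) D hD3 h3 ?_
    rw [Q.2.2.2]
    exact hf Q'
  · intro h; exact absurd hQ h

/-- `K_2(F) ⊗ ℚ → K_2(k) ⊗ ℚ` is injective if `k` is generated by one algebraic element -/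
theorem inj_simple {F : Type u} [Field F] {k : Type u} [Field k] {Q : F[X]} (hQ : Irreducible Q) (hQm : Q.Monic)
    (res : F[X] →+* k) (hres : ∀ P, res P = 0 ↔ Q ∣ P) (hsurj : Function.Surjective res) (x : KQ F 2)
    (hx : KQ.map 2 (res.comp C) x = 0) : x = 0 := by
  classical
  let E := FractionRing F[X]
  obtain ⟨H, hH⟩ := exists_H (E := E) hQ hQm res hres hsurj
  have hd : 0 < Q.natDegree := hQ.natDegree_pos
  let J : KQ F 2 →ₗ[ℚ] KQ E 3 := (lm (pu E Q)).comp (KQ.map 2 ((algebraMap F[X] E).comp C))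
  have hJ : ∀ a b : Fˣ, J (symb ![a, b]) = s3 (pu E Q) (pu E (C (a : F))) (pu E (C (b : F))) := by
    intro a b
    show lm (pu E Q) (KQ.map 2 _ (symb ![a, b])) = _
    rw [map_sy, lm_sy]
    congr 1
    · apply Units.ext
      rw [pu_val (C_ne_zero.2 a.ne_zero)]
      rfl
    · apply Units.ext
      rw [pu_val (C_ne_zero.2 b.ne_zero)]
      rfl
  -- the class is of lower degree
  have h1 : J x ∈ Ld (F := F) E Q.natDegree := by
    have h2 := kq_ext (H.comp (KQ.map 2 (res.comp C))) ((Ld (F := F) E Q.natDegree).mkQ.comp J) (by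
      intro a b
      show H (KQ.map 2 _ (symb ![a, b])) = (Ld (F := F) E Q.natDegree).mkQ (J (symb ![a, b]))
      rw [map_sy, hJ]
      exact hH _ _ (C (a : F)) (C (b : F)) (by rw [natDegree_C]; exact hd) (by rw [natDegree_C]; exact hd)
        rfl rfl) x
    rw [LinearMap.comp_apply, hx, map_zero] at h2
    rw [← Submodule.Quotient.mk_eq_zero, ← Submodule.mkQ_apply]
    exact h2.symm
  have h2 : ∀ e : ℕ, e < Q.natDegree → J x ∈ Ld (F := F) E (Q.natDegree - e) := by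
    intro e
    induction e with
    | zero => intro _; exact h1
    | succ e ih =>
      intro he
      have h3 := ih (by omega)
      have e1 : Q.natDegree - e = (Q.natDegree - (e + 1)) + 1 := by omega
      rw [e1] at h3
      refine descent (by omega) h3 ?_
      intro P k' _ D res' hD3
      have h4 := kq_ext ((tm D).comp J) 0 (by
        intro a b
        show tm D (J (symb ![a, b])) = 0
        rw [hJ]
        refine tm_zero res' D hD3 ?_ ?_ ?_
        · intro hdvd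
          have h5 := (P.2.2.1.associated_of_dvd hQ hdvd)
          have h6 := natDegree_eq_of_degree_eq (degree_eq_degree_of_associated h5)
          rw [P.2.2.2] at h6
          omega
        · refine lt_ndvd (C_ne_zero.2 a.ne_zero) ?_
          rw [natDegree_C, P.2.2.2]
          omega
        · refine lt_ndvd (C_ne_zero.2 b.ne_zero) ?_
          rw [natDegree_C, P.2.2.2]
          omega) x
      exact h4
  have h3 := h2 (Q.natDegree - 1) (by omega)
  have e1 : Q.natDegree - (Q.natDegree - 1) = 1 := by omega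
  rw [e1] at h3
  -- the tame symbol at infinity
  obtain ⟨D, hD⟩ := exists_TD_inf (F := F) E
  have h4 : tm D (J x) = 0 := by
    have h5 : Ld (F := F) E 1 ≤ LinearMap.ker (tm D) := by
      unfold Ld
      rw [Submodule.span_le]
      rintro z ⟨P, P', P'', g1, g2, g3, g4, g5, g6, rfl⟩
      show tm D _ = 0
      rw [tm_s3]
      unfold tf
      rw [(hD P g1).1, (hD P' g2).1, (hD P'' g3).1, Nat.lt_one_iff.1 g4, Nat.lt_one_iff.1 g5,
        Nat.lt_one_iff.1 g6]
      simp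
    exact h5 h3
  have h5 := kq_ext ((tm D).comp J) ((-(Q.natDegree : ℚ)) • LinearMap.id) (by
    intro a b
    show tm D (J (symb ![a, b])) = (-(Q.natDegree : ℚ)) • symb ![a, b]
    rw [hJ, tm_s3]
    unfold tf
    have ha := hD (C (a : F)) (C_ne_zero.2 a.ne_zero)
    have hb := hD (C (b : F)) (C_ne_zero.2 b.ne_zero)
    have ra : D.rho (pu E (C (a : F))) = a := by
      apply Units.ext
      rw [ha.2, leadingCoeff_C]
    have rb : D.rho (pu E (C (b : F))) = b := by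
      apply Units.ext
      rw [hb.2, leadingCoeff_C]
    rw [(hD Q hQ.ne_zero).1, ha.1, hb.1, natDegree_C, natDegree_C, ra, rb]
    simp
    rfl) x
  have h6 : (-(Q.natDegree : ℚ)) • x = 0 := by
    rw [← h4]
    exact h5.symm
  have h7 : (-(Q.natDegree : ℚ)) ≠ 0 := by
    rw [neg_ne_zero]
    exact_mod_cast hd.ne'
  exact (smul_eq_zero.1 h6).resolve_left h7

end Pool.Agent.Helper79.BT
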