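import Pool.Graph.R_pool_sql_team_seeded_620a6dc7.Helper537_Sym.Tame

set_option autoImplicit false

/-!
# Symbols `{a, b, c}` in `K_3^M ⊗ ℚ` and tame symbols `K_3 → K_2`
-/

namespace Pool.Agent.Helper79.BT

open Pool.Agent.TH826.MK (KQ symb symb_update_mul symb_update_zpow symb_eq_zero' KQ.lift KQ.lift_symb)
open Pool.Agent.Helper537_Sym (sy sy_mul_left sy_mul_right sy_swap sy_self sy_one_left sy_one_right sy_neg_left
  sy_neg_right sy_neg_one_left sy_neg_one_right sy_steinberg sy_zpow_left sy_zpow_right)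

variable {E : Type*} [Field E]

/-- the symbol `{a, b, c}` -/
noncomputable def s3 (a b c : Eˣ) : KQ E 3 := symb ![a, b, c]

theorem u0 {α : Type*} (a b c x : α) : Function.update ![a, b, c] 0 x = ![x, b, c] := by
  funext i
  fin_cases i <;> simp

theorem u1 {α : Type*} (a b c x : α) : Function.update ![a, b, c] 1 x = ![a, x, c] := by
  funext i
  fin_cases i <;> simp

theorem u2 {α : Type*} (a b c x : α) : Function.update ![a, b, c] 2 x = ![a, b, x] := by
  funext i
  fin_cases i <;> simp

theorem s3_mul0 (a a' b c : Eˣ) : s3 (a * a') b c = s3 a b c + s3 a' b c := by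
  have h := symb_update_mul ![a, b, c] 0 a a'
  rwa [u0, u0, u0] at h

theorem s3_mul1 (a b b' c : Eˣ) : s3 a (b * b') c = s3 a b c + s3 a b' c := by
  have h := symb_update_mul ![a, b, c] 1 b b'
  rwa [u1, u1, u1] at h

theorem s3_mul2 (a b c c' : Eˣ) : s3 a b (c * c') = s3 a b c + s3 a b c' := by
  have h := symb_update_mul ![a, b, c] 2 c c'
  rwa [u2, u2, u2] at h

theorem upd2_0 {α : Type*} (a : Fin 2 → α) (x : α) : Function.update a 0 x = ![x, a 1] := by
  funext i
  fin_cases i <;> simp

theorem upd2_1 {α : Type*} (a : Fin 2 → α) (x : α) : Function.update a 1 x = ![a 0, x] := by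
  funext i
  fin_cases i <;> simp

theorem fin2_lt {i j : Fin 2} (h : i < j) : i = 0 ∧ j = 1 := by
  fin_cases i <;> fin_cases j <;> simp_all

/-- multiplication with `{c}` from the right -/
noncomputable def rm (c : Eˣ) : KQ E 2 →ₗ[ℚ] KQ E 3 :=
  KQ.lift (fun a => s3 (a 0) (a 1) c)
    (by
      intro a i x y
      fin_cases i
      · show s3 (Function.update a 0 (x * y) 0) (Function.update a 0 (x * y) 1) c =
          s3 (Function.update a 0 x 0) (Function.update a 0 x 1) c +
            s3 (Function.update a 0 y 0) (Function.update a 0 y 1) c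
        rw [upd2_0, upd2_0, upd2_0]
        exact s3_mul0 _ _ _ _
      · show s3 (Function.update a 1 (x * y) 0) (Function.update a 1 (x * y) 1) c =
          s3 (Function.update a 1 x 0) (Function.update a 1 x 1) c +
            s3 (Function.update a 1 y 0) (Function.update a 1 y 1) c
        rw [upd2_1, upd2_1, upd2_1]
        exact s3_mul1 _ _ _ _)
    (by
      rintro a ⟨i, j, hij, h⟩
      obtain ⟨rfl, rfl⟩ := fin2_lt hij
      exact symb_eq_zero' ![a 0, a 1, c] (i := 0) (j := 1) (by decide) h)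

theorem rm_sy (a b c : Eˣ) : rm c (sy a b) = s3 a b c := by
  unfold rm sy
  rw [KQ.lift_symb]
  rfl

/-- multiplication with `{a}` from the left -/
noncomputable def lm (a : Eˣ) : KQ E 2 →ₗ[ℚ] KQ E 3 :=
  KQ.lift (fun b => s3 a (b 0) (b 1))
    (by
      intro b i x y
      fin_cases i
      · show s3 a (Function.update b 0 (x * y) 0) (Function.update b 0 (x * y) 1) =
          s3 a (Function.update b 0 x 0) (Function.update b 0 x 1) +
            s3 a (Function.update b 0 y 0) (Function.update b 0 y 1)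
        rw [upd2_0, upd2_0, upd2_0]
        exact s3_mul1 _ _ _ _
      · show s3 a (Function.update b 1 (x * y) 0) (Function.update b 1 (x * y) 1) =
          s3 a (Function.update b 1 x 0) (Function.update b 1 x 1) +
            s3 a (Function.update b 1 y 0) (Function.update b 1 y 1)
        rw [upd2_1, upd2_1, upd2_1]
        exact s3_mul2 _ _ _ _)
    (by
      rintro b ⟨i, j, hij, h⟩
      obtain ⟨rfl, rfl⟩ := fin2_lt hij
      exact symb_eq_zero' ![a, b 0, b 1] (i := 1) (j := 2) (by decide) h)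

theorem lm_sy (a b c : Eˣ) : lm a (sy b c) = s3 a b c := by
  unfold lm sy
  rw [KQ.lift_symb]
  rfl

theorem s3_swap01 (a b c : Eˣ) : s3 a b c = -s3 b a c := by
  rw [← rm_sy, sy_swap, map_neg, rm_sy]

theorem s3_swap12 (a b c : Eˣ) : s3 a b c = -s3 a c b := by
  rw [← lm_sy, sy_swap, map_neg, lm_sy]

theorem s3_self01 (a c : Eˣ) : s3 a a c = 0 := by
  rw [← rm_sy, sy_self, map_zero]

theorem s3_one0 (b c : Eˣ) : s3 1 b c = 0 := by
  rw [← rm_sy, sy_one_left, map_zero]

theorem s3_inv0 (a b c : Eˣ) : s3 a⁻¹ b c = -s3 a b c := by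
  have h := s3_mul0 a a⁻¹ b c
  rw [mul_inv_cancel, s3_one0] at h
  exact (neg_eq_of_add_eq_zero_right h.symm).symm

/-- a tame datum: an order and a residue of the units of `E` -/
structure TD (E k : Type*) [Field E] [Field k] where
  /-- the order -/
  ord : Eˣ → ℤ
  /-- the residue -/
  rho : Eˣ → kˣ
  ord_mul : ∀ a b, ord (a * b) = ord a + ord b
  rho_mul : ∀ a b, rho (a * b) = rho a * rho b
  st : ∀ a b : Eˣ, (a : E) + b = 1 → (ord b = 0 ∧ rho b = 1) ∨ (ord a = 0 ∧ rho a = 1) ∨
    (ord a = 0 ∧ ord b = 0 ∧ (rho a : k) + rho b = 1) ∨ (ord a = ord b ∧ rho b = -rho a)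

variable {k : Type*} [Field k]

/-- the formula of the tame symbol -/
noncomputable def tf (D : TD E k) (a b c : Eˣ) : KQ k 2 :=
  (D.ord a : ℚ) • sy (D.rho b) (D.rho c) - (D.ord b : ℚ) • sy (D.rho a) (D.rho c) +
    (D.ord c : ℚ) • sy (D.rho a) (D.rho b)

theorem tf_st01 (D : TD E k) (a b c : Eˣ) (h : (a : E) + b = 1) : tf D a b c = 0 := by
  unfold tf
  rcases D.st a b h with ⟨h1, h2⟩ | ⟨h1, h2⟩ | ⟨h1, h2, h3⟩ | ⟨h1, h2⟩
  · rw [h1, h2, sy_one_left, sy_one_right]; simp
  · rw [h1, h2, sy_one_left, sy_one_left]; simp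
  · rw [h1, h2, sy_steinberg h3]; simp
  · rw [h1, h2, sy_neg_left, sy_neg_right, sy_self]; simp

theorem tf_swap01 (D : TD E k) (a b c : Eˣ) : tf D a b c = -tf D b a c := by
  unfold tf
  rw [sy_swap (D.rho b) (D.rho a)]
  simp only [smul_neg]
  abel

theorem tf_swap12 (D : TD E k) (a b c : Eˣ) : tf D a b c = -tf D a c b := by
  unfold tf
  rw [sy_swap (D.rho c) (D.rho b)]
  simp only [smul_neg]
  abel

theorem tf_mul0 (D : TD E k) (a a' b c : Eˣ) : tf D (a * a') b c = tf D a b c + tf D a' b c := by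
  unfold tf
  rw [D.ord_mul, D.rho_mul, sy_mul_left, sy_mul_left, Int.cast_add, add_smul, smul_add, smul_add]
  abel

theorem tf_mul1 (D : TD E k) (a b b' c : Eˣ) : tf D a (b * b') c = tf D a b c + tf D a b' c := by
  rw [tf_swap01, tf_mul0, tf_swap01 D b, tf_swap01 D b']
  abel

theorem tf_mul2 (D : TD E k) (a b c c' : Eˣ) : tf D a b (c * c') = tf D a b c + tf D a b c' := by
  rw [tf_swap12, tf_mul1, tf_swap12 D a c, tf_swap12 D a c']
  abel

theorem upd3 {α : Type*} (a : Fin 3 → α) : a = ![a 0, a 1, a 2] := by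
  funext i
  fin_cases i <;> rfl

/-- the tame symbol -/
noncomputable def tm (D : TD E k) : KQ E 3 →ₗ[ℚ] KQ k 2 :=
  KQ.lift (fun a => tf D (a 0) (a 1) (a 2))
    (by
      intro a i x y
      rw [upd3 a]
      fin_cases i
      · show tf D (Function.update ![a 0, a 1, a 2] 0 (x * y) 0) (Function.update ![a 0, a 1, a 2] 0 (x * y) 1)
          (Function.update ![a 0, a 1, a 2] 0 (x * y) 2) =
          tf D (Function.update ![a 0, a 1, a 2] 0 x 0) (Function.update ![a 0, a 1, a 2] 0 x 1)
          (Function.update ![a 0, a 1, a 2] 0 x 2) +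
          tf D (Function.update ![a 0, a 1, a 2] 0 y 0) (Function.update ![a 0, a 1, a 2] 0 y 1)
          (Function.update ![a 0, a 1, a 2] 0 y 2)
        rw [u0, u0, u0]
        exact tf_mul0 D _ _ _ _
      · show tf D (Function.update ![a 0, a 1, a 2] 1 (x * y) 0) (Function.update ![a 0, a 1, a 2] 1 (x * y) 1)
          (Function.update ![a 0, a 1, a 2] 1 (x * y) 2) =
          tf D (Function.update ![a 0, a 1, a 2] 1 x 0) (Function.update ![a 0, a 1, a 2] 1 x 1)
          (Function.update ![a 0, a 1, a 2] 1 x 2) +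
          tf D (Function.update ![a 0, a 1, a 2] 1 y 0) (Function.update ![a 0, a 1, a 2] 1 y 1)
          (Function.update ![a 0, a 1, a 2] 1 y 2)
        rw [u1, u1, u1]
        exact tf_mul1 D _ _ _ _
      · show tf D (Function.update ![a 0, a 1, a 2] 2 (x * y) 0) (Function.update ![a 0, a 1, a 2] 2 (x * y) 1)
          (Function.update ![a 0, a 1, a 2] 2 (x * y) 2) =
          tf D (Function.update ![a 0, a 1, a 2] 2 x 0) (Function.update ![a 0, a 1, a 2] 2 x 1)
          (Function.update ![a 0, a 1, a 2] 2 x 2) +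
          tf D (Function.update ![a 0, a 1, a 2] 2 y 0) (Function.update ![a 0, a 1, a 2] 2 y 1)
          (Function.update ![a 0, a 1, a 2] 2 y 2)
        rw [u2, u2, u2]
        exact tf_mul2 D _ _ _ _)
    (by
      rintro a ⟨i, j, hij, h⟩
      fin_cases i <;> fin_cases j <;> first | (exfalso; revert hij; decide) | skip
      · exact tf_st01 D _ _ _ h
      · have h' : (a 0 : E) + a 2 = 1 := h
        rw [tf_swap12, tf_st01 D _ _ _ h', neg_zero]
      · have h' : (a 1 : E) + a 2 = 1 := h
        rw [tf_swap01, tf_swap12, tf_st01 D _ _ _ h', neg_zero, neg_zero])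

theorem tm_s3 (D : TD E k) (a b c : Eˣ) : tm D (s3 a b c) = tf D a b c := by
  unfold tm s3
  rw [KQ.lift_symb]
  rfl

end Pool.Agent.Helper79.BT
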